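import Pool.Agent.Helper35.MS.StGB

/-!
# Project MS: module GBF (Gauss-Bonnet for immersed spheres: combination)
-/

set_option autoImplicit false

namespace Helper44.MS

open Helper35.MS Helper35.PI Helper35.PI2 Helper32.CL
open scoped ContDiff Manifold Topology ENNReal BigOperators
open MeasureTheory Set Filter

theorem hGBF (hGKD : StGKD) (hGPA : StGPA) (hGEM : StGEM) (hGRS : StGRS) (hGRA : StGRA)
    (hMUJ : StMUJ) : StGBF := by
  intro N J F c χ hS t ht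
  have _ := hMUJ
  obtain ⟨G, i₁, i₂, hG, h1, h2⟩ := hGPA 2 N S2 J F inS t ht hS.mcf hGRS.1
  have hSG : SetupJ 2 univ G c χ := ⟨hG, hS.pu⟩
  have hd : ∀ s : ℝ, HasDerivAt (fun t => ∫ q, (‖HH (n := 2) G q t‖ ^ 2 - AA (n := 2) G q t)
      ∂(muM 2 G c χ t)) 0 s := fun s => hGKD (N + 3) S2 univ G c χ hSG s (mem_univ s)
  have hconst := is_const_of_deriv_eq_zero (fun s => (hd s).differentiableAt)
    (fun s => (hd s).deriv) 0 (Real.pi / 2)
  obtain ⟨e1, e2⟩ := hGEM 2 N (N + 3) S2 J F G t 0 i₁ hS.mcf ht h1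
  obtain ⟨e3, e4⟩ := hGEM 2 3 (N + 3) S2 univ inS G 0 (Real.pi / 2) i₂ hGRS.1 (mem_univ _) h2
  have k1 : ∫ q, (‖HH (n := 2) G q 0‖ ^ 2 - AA (n := 2) G q 0) ∂(muM 2 G c χ 0) =
      ∫ q, (‖HH (n := 2) F q t‖ ^ 2 - AA (n := 2) F q t) ∂(muM 2 F c χ t) := by
    rw [e2 c χ]
    refine integral_congr_ae (Eventually.of_forall fun q => ?_)
    obtain ⟨a1, a2, -⟩ := e1 q
    show ‖HH (n := 2) G q 0‖ ^ 2 - AA (n := 2) G q 0 = ‖HH (n := 2) F q t‖ ^ 2 - AA (n := 2) F q t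
    rw [a1, a2, LinearIsometry.norm_map]
  have k2 : ∫ q, (‖HH (n := 2) G q (Real.pi / 2)‖ ^ 2 - AA (n := 2) G q (Real.pi / 2))
      ∂(muM 2 G c χ (Real.pi / 2)) = 8 * Real.pi := by
    rw [e4 c χ]
    have k3 : ∫ q, (‖HH (n := 2) G q (Real.pi / 2)‖ ^ 2 - AA (n := 2) G q (Real.pi / 2))
        ∂(muM 2 inS c χ 0) = ∫ _, (2 : ℝ) ∂(muM 2 inS c χ 0) := by
      refine integral_congr_ae (Eventually.of_forall fun q => ?_)
      obtain ⟨a1, a2, -⟩ := e3 q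
      obtain ⟨b1, b2⟩ := hGRS.2 q 0
      show ‖HH (n := 2) G q (Real.pi / 2)‖ ^ 2 - AA (n := 2) G q (Real.pi / 2) = 2
      have hq : ‖(q : EE 3)‖ = 1 := norm_eq_of_mem_sphere q
      rw [a1, a2, LinearIsometry.norm_map, b1, b2, norm_neg, norm_smul, hq]
      norm_num
    rw [k3, integral_const, hGRA c χ hS.pu 0, smul_eq_mul]
    ring
  rw [← k1, hconst, k2]

end Helper44.MS
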